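import Pool.Agent.TH158.FM.Rng
import Pool.Agent.TH692.FM2.Norm3
import Pool.Agent.TH692.FM2.Range2

set_option autoImplicit false

/-!
# MP_3d0d30_nt: the moments of all orders `2k ≥ 4` in ranges of `T`

`M_k(T) = ∫_0^T |ζ(1/2 + it)|^{2k} dt`. The inequality `M_k(T) < T (log T)^{k²}` of Q2 holds for
every real `k ≥ 2` and every `T` with `1000 ≤ T ≤ max (5 · 10^12, (2 k log k)^{2k})`, and for
every real `k ≥ 3` and `1000 ≤ T ≤ 10^14`; so Q1 (`k = 3`) holds for `1000 < T ≤ 10^14`.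

Proof: the fourth moment with an explicit constant (Plancherel's theorem, the functional equation,
Hilbert's inequality), and the bound `|ζ(1/2 + it)| ≤ 4 (t / 2π)^{1/4} + 1` for `t ≥ 44`
(Euler-Maclaurin summation, Fourier expansion of the sawtooth function, the Gamma integral).
-/

namespace Pool.Agent.Results.MP_3d0d30_nt.AllOrdersInRanges

open Complex Pool.Agent.TH158.FM

/-- `M_k(T) = ∫_0^T |ζ(1/2 + it)|^{2k} dt` -/
noncomputable def M (k T : ℝ) : ℝ := ∫ t in (0:ℝ)..T, ‖riemannZeta (1 / 2 + t * I)‖ ^ (2 * k)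

lemma M_eq (k T : ℝ) : M k T = MM k T := by
  unfold M MM
  congr 1
  funext t
  rw [pt_half]

/-- Q2 for every real `k ≥ 2` in ranges of `T` (Q1 is the case `k = 3`, `T ≤ 10^14`) -/
theorem result (k T : ℝ) (hk : 2 ≤ k) (hT : 1000 ≤ T)
    (h : T ≤ 5 * 10 ^ 12 ∨ T ≤ (2 * k * Real.log k) ^ (2 * k) ∨ (3 ≤ k ∧ T ≤ 10 ^ 14)) :
    M k T < T * Real.log T ^ (k ^ 2) := by
  have hN : S_NORM2 := Pool.Agent.TH692.FM2.norm2_all
    (Pool.Agent.TH615.J4553.hil_all Pool.Agent.TH158.FM.hil0_all)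
    (Pool.Agent.TH158.FM.lap_all Pool.Agent.TH360.J4554.div_all)
  have hR : S_RANGE2 := Pool.Agent.TH692.FM2.range2_all
  rw [M_eq]
  have hT0 : 0 < T := by linarith
  have hl : 0 < Real.log T := by linarith [log_ge hT]
  have hp : 0 < T * Real.log T ^ (k ^ 2) := by positivity
  rcases h with h | h | ⟨h3, h⟩
  · exact all_small hN hR k T hk hT h
  · have h1 := all_region k T hk hT h
    linarith
  · have h1 := all_three hN hR k T h3 hT h
    linarith

end Pool.Agent.Results.MP_3d0d30_nt.AllOrdersInRanges
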