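import Pool.Agent.TH158.FM.Main

set_option autoImplicit false

/-!
# MP_3d0d30_nt: the fourth moment of the zeta function, explicit for every `T ≥ 1000`

`∫_0^T |ζ(1/2 + it)|⁴ dt ≤ (4/5) T (log T)⁴` for every real `T ≥ 1000`.

Proof: the function `Γ(s) ζ(s)² e^{-i(π/2-δ)s}`, `δ = 1/(2T)`, is the Mellin transform of
`∑ d(n) exp(-n x e^{i(π/2-δ)})` minus its polar part; Plancherel's theorem, the functional equation
(which reflects `x < 2π` to `x > 2π` up to a bounded error), Hilbert's inequality with the constant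
`π`, and an explicit bound for `∑_{n ≤ x} d(n)²/n`.
-/

namespace Pool.Agent.Results.MP_3d0d30_nt.ExplicitFourthMoment

open Complex

/-- `M_k(T) = ∫_0^T |ζ(1/2 + it)|^{2k} dt` -/
noncomputable def M (k T : ℝ) : ℝ := ∫ t in (0:ℝ)..T, ‖riemannZeta (1 / 2 + t * I)‖ ^ (2 * k)

/-- the case `k = 2` of Q2, with the constant `4/5` -/
theorem result (T : ℝ) (hT : 1000 ≤ T) : M 2 T ≤ 4 / 5 * (T * Real.log T ^ 4) := by
  have h := Pool.Agent.TH158.FM.fourth_all T hT
  have e : M 2 T = ∫ t in (0:ℝ)..T, ‖riemannZeta (Pool.Agent.TH158.FM.pt (1 / 2) t)‖ ^ 4 := by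
    unfold M
    congr 1
    funext t
    rw [Pool.Agent.TH158.FM.pt_half, show (2 * 2 : ℝ) = ((4 : ℕ) : ℝ) by norm_num, Real.rpow_natCast]
  rw [e]
  exact h

end Pool.Agent.Results.MP_3d0d30_nt.ExplicitFourthMoment
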