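import Pool.Agent.TH158.LO.Main

set_option autoImplicit false

/-!
# MP_3d0d30_nt: Q2 for large orders and the size of zeta

For large `k` the inequality `M_k(T) ≤ T (log T)^{k²}` of Q2 is a statement about the size of zeta:

* it holds for `1000 ≤ T ≤ k^{B k}`, `k ≥ k₀(B)`, for every `B < 3`; and the range of `B` for which
  it holds is given exactly by the growth of zeta: it holds for all `B < A` if and only if
  `ζ(1/2 + it) = O(t^{1/(2A) + ε})` for every `ε > 0`; so it holds for every `B` if and only if the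
  Lindelöf hypothesis is true;
* it holds for all `k ≥ C √(log T / log log T)`, with some `C`, if and only if
  `|ζ(1/2 + it)| ≤ exp (C' √(log t log log t))` with some `C'`;
* Q2 itself implies `|ζ(1/2 + it)| ≤ 6 exp √(2 log t log log t)` for every `t > 1000`, and
  `|ζ(1/2 + it)| ≤ exp ((1 + ε) √(log t log log t))` for all large `t`, for every `ε > 0`.
-/

namespace Pool.Agent.Results.MP_3d0d30_nt.LargeOrders

open Complex

/-- `M_k(T) = ∫_0^T |ζ(1/2 + it)|^{2k} dt` -/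
noncomputable def M (k T : ℝ) : ℝ := ∫ t in (0:ℝ)..T, ‖riemannZeta (1 / 2 + t * I)‖ ^ (2 * k)

/-- the inequality of Q2 holds for all sufficiently large real `k` and all `T` with
`1000 ≤ T ≤ k^{B k}` -/
def HoldsUpTo (B : ℝ) : Prop := ∃ k0 : ℝ, ∀ k T : ℝ, k0 ≤ k → 1000 ≤ T → T ≤ k ^ (B * k) →
  M k T ≤ T * Real.log T ^ (k ^ 2)

/-- `ζ(1/2 + it) = O(t^{μ + ε})` for every `ε > 0` -/
def Exponent (μ : ℝ) : Prop := ∀ ε : ℝ, 0 < ε → ∃ C : ℝ, ∀ t : ℝ, 1 ≤ t →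
  ‖riemannZeta (1 / 2 + t * I)‖ ≤ C * t ^ (μ + ε)

lemma M_eq (k T : ℝ) : M k T = Pool.Agent.TH158.FM.MM k T := by
  unfold M Pool.Agent.TH158.FM.MM
  congr 1
  funext t
  rw [Pool.Agent.TH158.FM.pt_half]

theorem result :
    (∀ B : ℝ, B < 3 → HoldsUpTo B) ∧
    (∀ A : ℝ, 0 < A → ((∀ B : ℝ, B < A → HoldsUpTo B) ↔ Exponent (1 / (2 * A)))) ∧
    ((∀ B : ℝ, HoldsUpTo B) ↔ Exponent 0) ∧
    ((∃ C : ℝ, ∀ k T : ℝ, 1000 ≤ T → C * Real.sqrt (Real.log T / Real.log (Real.log T)) ≤ k →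
      M k T ≤ T * Real.log T ^ (k ^ 2)) ↔
      ∃ C : ℝ, ∀ t : ℝ, 1000 ≤ t → ‖riemannZeta (1 / 2 + t * I)‖ ≤
        Real.exp (C * Real.sqrt (Real.log t * Real.log (Real.log t)))) ∧
    ((∀ k T : ℝ, 2 ≤ k → 1000 < T → M k T ≤ T * Real.log T ^ (k ^ 2)) →
      (∀ t : ℝ, 1000 < t → ‖riemannZeta (1 / 2 + t * I)‖ ≤
        6 * Real.exp (Real.sqrt (2 * (Real.log t * Real.log (Real.log t))))) ∧
      ∀ ε : ℝ, 0 < ε → ∃ t0 : ℝ, ∀ t : ℝ, t0 ≤ t → ‖riemannZeta (1 / 2 + t * I)‖ ≤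
        Real.exp ((1 + ε) * Real.sqrt (Real.log t * Real.log (Real.log t)))) := by
  simp only [HoldsUpTo, Exponent, M_eq, ← Pool.Agent.TH158.FM.pt_half]
  exact ⟨Pool.Agent.TH158.LO.three, fun A hA => Pool.Agent.TH158.LO.iff_all hA,
    Pool.Agent.TH158.LO.lindelof, ⟨Pool.Agent.TH158.LO.sq_fwd Pool.Agent.TH158.FM.zb_true,
    Pool.Agent.TH158.LO.sq_bwd Pool.Agent.TH158.FM.zb_true⟩,
    fun h => ⟨Pool.Agent.TH158.LO.nec Pool.Agent.TH158.FM.zb_true h, Pool.Agent.TH158.LO.nec2 h⟩⟩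

end Pool.Agent.Results.MP_3d0d30_nt.LargeOrders
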